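import Pool.Agent.Helper41.LD4.Defs
import Pool.Agent.Helper5.LD.GA

/-!
# Project LD4, blocks L3, L4: correlations of two test functions with general ratio, and at the same frequency
-/

set_option autoImplicit false

namespace Pool.Agent.Helper94.LD4

open Set MeasureTheory
open Pool.Agent.Helper41.LD (av)
open Pool.Agent.Helper41.LD2 (EqA)
open Pool.Agent.Helper41.LD4
open Pool.Agent.Helper5.LD (ii_bdd int_le_len)

variable {N₀ N₀' m m' : ℕ} {w w' : ℝ} {f f' : ℝ → ℝ}

/-- product with the `α` times faster one: equidistribution of the phases -/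
theorem pair_equi (hf : Fn N₀ m w f) (hf' : Fn N₀' m' w' f') {α : ℝ} {Q₀ : ℕ} {ε : ℝ} (hE : EqA α Q₀ ε) (hε : 0 ≤ ε) {β : ℝ}
    (hβ : 0 < β) (c d a b : ℝ) (hab : (Q₀ : ℝ) + 1 ≤ β * (b - a)) :
    |∫ x in a..b, f (β * x + d) * f' (β * α * x + c)| ≤ m' * ε * (b - a) + 1 / β := by
  set c' : ℝ := c - α * d with hc'
  set F : ℝ → ℝ := fun y => f y * f' (α * y + c') with hF
  have hFm : Measurable F := hf.meas.mul (hf'.meas.comp ((measurable_const_mul α).add_const c'))
  have hF1 : ∀ y, |F y| ≤ 1 := fun y => by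
    rw [hF]
    show |f y * f' (α * y + c')| ≤ 1
    rw [abs_mul]
    exact mul_le_one₀ (hf.bdd _) (abs_nonneg _) (hf'.bdd _)
  have hint : ∀ u v, IntervalIntegrable F volume u v := fun u v => ii_bdd hFm hF1 u v
  have e1 : ∫ x in a..b, f (β * x + d) * f' (β * α * x + c) =
      β⁻¹ * ∫ y in β * a + d..β * b + d, F y := by
    have h0 := intervalIntegral.integral_comp_mul_add (a := a) (b := b) F hβ.ne' d
    rw [smul_eq_mul] at h0
    rw [← h0]
    refine intervalIntegral.integral_congr fun x _ => ?_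
    show f (β * x + d) * f' (β * α * x + c) = f (β * x + d) * f' (α * (β * x + d) + c')
    congr 2
    rw [hc']
    ring
  set Y : ℝ := β * a + d with hY
  set Q : ℕ := ⌊β * (b - a)⌋₊ with hQ
  have hQ0 : (0 : ℝ) ≤ Q₀ := Nat.cast_nonneg _
  have hba : 0 ≤ β * (b - a) := by linarith
  have hQ1 := Nat.floor_le hba
  have hQ2 := Nat.lt_floor_add_one (β * (b - a))
  rw [← hQ] at hQ1 hQ2
  have hQQ : Q₀ ≤ Q := by
    rw [hQ]
    exact Nat.le_floor (by linarith)
  have hm0 : (0 : ℝ) ≤ m' * ε := by positivity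
  have e2 : ∫ y in Y..Y + Q, F y = ∫ t in (0 : ℝ)..1, ∑ n ∈ Finset.range Q, F (Y + n + t) := by
    have h2 := intervalIntegral.sum_integral_adjacent_intervals (μ := volume) (f := F) (a := fun n : ℕ => Y + n) (n := Q)
      fun n _ => hint _ _
    simp only [Nat.cast_zero, add_zero] at h2
    rw [← h2, intervalIntegral.integral_finsetSum fun n _ => ?_]
    · refine Finset.sum_congr rfl fun n _ => ?_
      rw [intervalIntegral.integral_comp_add_left F (Y + n)]
      congr 1 <;> push_cast <;> ring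
    · refine ii_bdd (hFm.comp (measurable_const_add (Y + n))) (fun x => hF1 _) 0 1
  have h3 : |∫ y in Y..Y + Q, F y| ≤ m' * ε * Q := by
    rw [e2]
    have h4 := intervalIntegral.norm_integral_le_of_norm_le_const (a := (0 : ℝ)) (b := 1)
      (f := fun t => ∑ n ∈ Finset.range Q, F (Y + n + t)) (C := m' * ε * Q) fun t _ => ?_
    · rw [Real.norm_eq_abs] at h4
      simpa using h4
    · have e3 : ∑ n ∈ Finset.range Q, F (Y + n + t) = f (Y + t) * ∑ n ∈ Finset.range Q, f' (n * α + (α * (Y + t) + c')) := by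
        rw [Finset.mul_sum]
        refine Finset.sum_congr rfl fun n _ => ?_
        show f (Y + n + t) * f' (α * (Y + n + t) + c') = _
        have e4 : f (Y + n + t) = f (Y + t) := by
          have := hf.per.nat_mul n (Y + t)
          rw [mul_one] at this
          rw [← this]
          congr 1
          ring
        rw [e4]
        congr 2
        ring
      rw [Real.norm_eq_abs, e3, abs_mul]
      calc |f (Y + t)| * |∑ n ∈ Finset.range Q, f' (n * α + (α * (Y + t) + c'))| ≤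
            1 * (m' * ε * Q) := mul_le_mul (hf.bdd _) (hf'.equi α Q₀ ε hE hε Q hQQ _) (abs_nonneg _) zero_le_one
        _ = m' * ε * Q := one_mul _
  have h5 : |∫ y in Y + Q..β * b + d, F y| ≤ 1 := by
    refine (int_le_len hF1 ?_).trans ?_
    · rw [hY]; linarith
    · rw [hY]; linarith
  rw [e1, ← intervalIntegral.integral_add_adjacent_intervals (hint Y (Y + Q)) (hint (Y + Q) (β * b + d)), abs_mul,
    abs_of_pos (inv_pos.2 hβ)]
  have h6 := abs_add_le (∫ y in Y..Y + Q, F y) (∫ y in Y + Q..β * b + d, F y)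
  have h7 : m' * ε * (Q : ℝ) ≤ m' * ε * (β * (b - a)) := mul_le_mul_of_nonneg_left hQ1 hm0
  have h8 : β⁻¹ * |(∫ y in Y..Y + Q, F y) + ∫ y in Y + Q..β * b + d, F y| ≤ β⁻¹ * (m' * ε * (β * (b - a)) + 1) :=
    mul_le_mul_of_nonneg_left (by linarith) (inv_pos.2 hβ).le
  refine h8.trans (le_of_eq ?_)
  field_simp

/-- L3 -/
theorem corr_near (hf : Fn N₀ m w f) (hf' : Fn N₀' m' w' f') {Q₀ : ℕ} {ε s q d d' a ℓ : ℝ} (hs : 0 < s) (hq : 0 < q) (hℓ : 0 < ℓ)
    (hE : EqA (q / s) Q₀ ε) (hε : 0 ≤ ε) (hQ : (Q₀ : ℝ) + 1 ≤ s * ℓ) :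
    |av (fun x => f (s * x + d) * f' (q * x + d')) a ℓ| ≤ m' * ε + 1 / (s * ℓ) := by
  have h := pair_equi hf hf' hE hε hs d' d a (a + ℓ) (by rw [add_sub_cancel_left]; exact hQ)
  rw [add_sub_cancel_left, mul_div_cancel₀ _ hs.ne'] at h
  unfold av
  rw [abs_div, abs_of_pos hℓ, div_le_iff₀ hℓ]
  refine h.trans (le_of_eq ?_)
  have := hq
  field_simp

/-- L4: the same frequency -/
theorem corr_same (hf : Fn N₀ m w f) (hf' : Fn N₀' m' w' f') {s d a ℓ : ℝ} (hs : 0 < s) (hℓ : 0 < ℓ) :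
    |av (fun x => f (s * x + d) * f' (s * x + d)) a ℓ - ∫ t in (0 : ℝ)..1, f t * f' t| ≤ 2 / (s * ℓ) := by
  set F : ℝ → ℝ := fun y => f y * f' y with hF
  have hFm : Measurable F := hf.meas.mul hf'.meas
  have hF1 : ∀ y, |F y| ≤ 1 := fun y => by
    rw [hF]
    show |f y * f' y| ≤ 1
    rw [abs_mul]
    exact mul_le_one₀ (hf.bdd _) (abs_nonneg _) (hf'.bdd _)
  have hper : Function.Periodic F 1 := fun y => by
    show f (y + 1) * f' (y + 1) = f y * f' y
    rw [hf.per, hf'.per]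
  have hint : ∀ u v, IntervalIntegrable F volume u v := fun u v => ii_bdd hFm hF1 u v
  set I : ℝ := ∫ t in (0 : ℝ)..1, F t with hI
  have hI1 : |I| ≤ 1 := by
    have := int_le_len (a := (0 : ℝ)) (b := 1) hF1 zero_le_one
    simpa using this
  set Y : ℝ := s * a + d with hY
  have hL : 0 < s * ℓ := mul_pos hs hℓ
  set n : ℕ := ⌊s * ℓ⌋₊ with hn
  have hn1 := Nat.floor_le hL.le
  have hn2 := Nat.lt_floor_add_one (s * ℓ)
  rw [← hn] at hn1 hn2
  have e1 : ∫ x in a..(a + ℓ), f (s * x + d) * f' (s * x + d) = s⁻¹ * ∫ y in Y..Y + s * ℓ, F y := by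
    have h0 := intervalIntegral.integral_comp_mul_add (a := a) (b := a + ℓ) F hs.ne' d
    rw [smul_eq_mul] at h0
    have h1 : s * (a + ℓ) + d = Y + s * ℓ := by
      rw [hY]
      ring
    rw [h1] at h0
    exact h0
  have e2 : ∫ y in Y..Y + n, F y = n * I := by
    have h1 := hper.intervalIntegral_add_zsmul_eq n Y hint
    rw [hper.intervalIntegral_add_eq Y 0, zero_add] at h1
    simpa using h1
  have h5 : |∫ y in Y + n..Y + s * ℓ, F y| ≤ s * ℓ - n := by
    refine (int_le_len hF1 (by linarith)).trans (by linarith)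
  have h6 : |(∫ y in Y..Y + s * ℓ, F y) - s * ℓ * I| ≤ 2 := by
    rw [← intervalIntegral.integral_add_adjacent_intervals (hint Y (Y + n)) (hint (Y + n) (Y + s * ℓ)), e2]
    have e3 : n * I + (∫ y in Y + n..Y + s * ℓ, F y) - s * ℓ * I =
        (∫ y in Y + n..Y + s * ℓ, F y) - (s * ℓ - n) * I := by ring
    rw [e3]
    have h7 := abs_sub (∫ y in Y + n..Y + s * ℓ, F y) ((s * ℓ - n) * I)
    have h8 : |(s * ℓ - n) * I| ≤ s * ℓ - n := by
      rw [abs_mul, abs_of_nonneg (by linarith : 0 ≤ s * ℓ - n)]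
      exact mul_le_of_le_one_right (by linarith) hI1
    linarith
  have e4 : av (fun x => f (s * x + d) * f' (s * x + d)) a ℓ - I =
      ((∫ y in Y..Y + s * ℓ, F y) - s * ℓ * I) / (s * ℓ) := by
    unfold av
    rw [e1]
    field_simp
  rw [e4, abs_div, abs_of_pos hL]
  exact div_le_div_of_nonneg_right h6 hL.le

end Pool.Agent.Helper94.LD4
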